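import Pool.Agent.Work.MP_49d20d_lc.Member
import Pool.Agent.Lib.Cx.Bridge

namespace Pool.Agent.Results.MP_49d20d_lc.Complete

open Pool.Agent.Work.MP_49d20d_lc Pool.Agent.Lib.Cx

/-- Constrained matrix invertibility over the reals is complete for the existential theory of the
reals: each of the two problems reduces to the other by a polynomial-time many-one reduction. -/
theorem result : N793a5b8e.ManyOneReducible ETR CI ∧ N793a5b8e.ManyOneReducible CI ETR :=
  ⟨⟨hardRed, ls_hardRed.isPolyTime, hardRed_spec⟩, ⟨memRed, ls_memRed.isPolyTime, memRed_spec⟩⟩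

end Pool.Agent.Results.MP_49d20d_lc.Complete
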